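import Pool.Agent.H77.BpaE

open Pool.Agent.H77.Bpa

theorem Pool.Agent.Results.MP_f6b51f_lc.TwoVars.result (A : Type) [Nonempty A]
    (E : Set (Tm (A ⊕ ℕ) × Tm (A ⊕ ℕ))) (hE : ∀ t u, Deriv E t u ↔ Valid t u) :
    {e | e ∈ E ∧ TwoVar e}.Infinite :=
  main A E hE
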